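import Pool.Agent.H7.OPP.Stmts

set_option autoImplicit false

open scoped Topology ComplexConjugate Uniformity

namespace Pool.OPP

noncomputable section

theorem NPSIfin_abs {Q I : Type} [Fintype Q] [Fintype I] (W : Q → ℝ) (Z : Q → I → ℂ) (v : I → ℂ) :
    ∑ a, ∑ b, conj (v a) * (∑ q, (W q : ℂ) * (conj (Z q a) * Z q b)) * v b =
      ((∑ q, W q * Complex.normSq (∑ a, Z q a * v a) : ℝ) : ℂ) := by
  have h1 : ∀ a b, conj (v a) * (∑ q, (W q : ℂ) * (conj (Z q a) * Z q b)) * v b =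
      ∑ q, (W q : ℂ) * (conj (Z q a * v a) * (Z q b * v b)) := by
    intro a b
    rw [Finset.mul_sum, Finset.sum_mul]
    refine Finset.sum_congr rfl fun q _ => ?_
    rw [map_mul]
    ring
  simp only [h1]
  push_cast
  have h2 : ∀ q, ((Complex.normSq (∑ a, Z q a * v a) : ℝ) : ℂ) =
      ∑ a, ∑ b, conj (Z q a * v a) * (Z q b * v b) := by
    intro q
    rw [Complex.normSq_eq_conj_mul_self, map_sum, Finset.sum_mul_sum]
  simp only [h2, Finset.mul_sum]
  rw [Finset.sum_comm' (t' := Finset.univ) (s' := fun _ => Finset.univ) (by simp)]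
  calc _ = ∑ b, ∑ q, ∑ a, (W q : ℂ) * (conj (Z q a * v a) * (Z q b * v b)) := by
        refine Finset.sum_congr rfl fun b _ => ?_
        rw [Finset.sum_comm]
    _ = ∑ q, ∑ b, ∑ a, (W q : ℂ) * (conj (Z q a * v a) * (Z q b * v b)) := Finset.sum_comm
    _ = _ := by
        refine Finset.sum_congr rfl fun q _ => ?_
        rw [Finset.sum_comm]

/-- the class of an index -/
def NPSIfin_c {L : ℕ} (p : Fin L → SS) (l : Fin L) (s : JI) : Fin hh → Bool :=
  open Classical in fun w => decide (p l ∈ FF w ∧ typ s = w.succ)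

theorem NPSIfin_c_iff {L : ℕ} (p : Fin L → SS) (l : Fin L) (s t : JI) :
    (∀ w : Fin hh, p l ∈ FF w → (typ s = w.succ ↔ typ t = w.succ)) ↔
      NPSIfin_c p l s = NPSIfin_c p l t := by
  constructor
  · intro h
    funext w
    unfold NPSIfin_c
    by_cases hw : p l ∈ FF w
    · simp [h w hw]
    · simp [hw]
  · intro h w hw
    have := congrFun h w
    unfold NPSIfin_c at this
    simpa [hw] using this

/-- the group element -/
def NPSIfin_g (n : ℕ) (g : Fin n → ZMod 3) : ℕ → ZMod 3 :=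
  fun j => if h : j < n then g ⟨j, h⟩ else 0

theorem NPSIfin_coef (n : ℕ) {L : ℕ} (p : Fin L → SS) (f : Fin L → C(SS, ℝ)) (l : Fin L) (s t : JI)
    (x : SS) : coef n p f l s t x = (if NPSIfin_c p l s = NPSIfin_c p l t then 1 else 0) *
      ∑ g : Fin n → ZMod 3, ((((3 : ℝ) ^ n)⁻¹ * f l (act (-(NPSIfin_g n g)) x) : ℝ) : ℂ) *
        (chi (NPSIfin_g n g) s * conj (chi (NPSIfin_g n g) t)) := by
  classical
  unfold coef
  by_cases h : NPSIfin_c p l s = NPSIfin_c p l t
  · rw [if_pos ((NPSIfin_c_iff p l s t).2 h), if_pos h, one_mul]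
    unfold avg
    rw [Finset.mul_sum]
    refine Finset.sum_congr rfl fun g _ => ?_
    show (3 ^ n : ℂ)⁻¹ * ((f l (act (-(NPSIfin_g n g)) x) : ℂ) * chi (NPSIfin_g n g) s *
      conj (chi (NPSIfin_g n g) t)) = _
    push_cast
    ring
  · rw [if_neg (fun h' => h ((NPSIfin_c_iff p l s t).1 h')), if_neg h, zero_mul]

theorem npsi_fin (L k n m n' : ℕ) (e : Fin L × JJ k ≃ Fin m) (p : Fin L → SS)
    (f : Fin L → C(SS, ℝ)) (hf : ∀ l x, 0 ≤ f l x) (_hA : SAct)
    (B : Fin n' → Fin n' → Matrix (Fin m) (Fin m) ℂ) (y : SS) (v : Fin n' → JI → ℂ) :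
    ∃ r : ℝ, 0 ≤ r ∧ ∑ i, ∑ j, ∑ s : JJ k, ∑ t : JJ k, conj (v i s) *
      (∑ l, (∑ l', star (B l' i) * B l' j) (e (l, s)) (e (l, t)) * coef n p f l s t y) *
        v j t = (r : ℂ) := by
  classical
  let Q := Fin L × (Fin n → ZMod 3) × Fin n' × Fin m × (Fin hh → Bool)
  let W : Q → ℝ := fun q => ((3 : ℝ) ^ n)⁻¹ * f q.1 (act (-(NPSIfin_g n q.2.1)) y)
  let Z : Q → (Fin n' × JJ k) → ℂ := fun q a =>
    (if NPSIfin_c p q.1 a.2 = q.2.2.2.2 then 1 else 0) * B q.2.2.1 a.1 q.2.2.2.1 (e (q.1, a.2)) *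
      conj (chi (NPSIfin_g n q.2.1) a.2)
  have hW : ∀ q, 0 ≤ W q := fun q => mul_nonneg (by positivity) (hf _ _)
  have key : ∀ (i j : Fin n') (s t : JJ k),
      (∑ l, (∑ l', star (B l' i) * B l' j) (e (l, s)) (e (l, t)) * coef n p f l s t y) =
        ∑ q, (W q : ℂ) * (conj (Z q (i, s)) * Z q (j, t)) := by
    intro i j s t
    rw [Fintype.sum_prod_type]
    refine Finset.sum_congr rfl fun l _ => ?_
    rw [NPSIfin_coef, Fintype.sum_prod_type, Finset.mul_sum, Finset.mul_sum]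
    refine Finset.sum_congr rfl fun g _ => ?_
    rw [Fintype.sum_prod_type, Matrix.sum_apply, Finset.sum_mul]
    refine Finset.sum_congr rfl fun l' _ => ?_
    rw [Fintype.sum_prod_type, Matrix.mul_apply, Finset.sum_mul]
    refine Finset.sum_congr rfl fun r _ => ?_
    simp only [W, Z, map_mul, Complex.conj_conj]
    have hκ : ∀ κ : Fin hh → Bool,
        (((((3 : ℝ) ^ n)⁻¹ * f l (act (-(NPSIfin_g n g)) y) : ℝ)) : ℂ) *
          (conj (if NPSIfin_c p l s = κ then (1 : ℂ) else 0) * conj (B l' i r (e (l, s))) *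
            chi (NPSIfin_g n g) s *
            ((if NPSIfin_c p l t = κ then 1 else 0) * B l' j r (e (l, t)) *
              conj (chi (NPSIfin_g n g) t))) =
        (if NPSIfin_c p l s = κ then (if NPSIfin_c p l t = κ then
          ((((3 : ℝ) ^ n)⁻¹ * f l (act (-(NPSIfin_g n g)) y) : ℝ) : ℂ) *
            (conj (B l' i r (e (l, s))) * chi (NPSIfin_g n g) s *
              (B l' j r (e (l, t)) * conj (chi (NPSIfin_g n g) t))) else 0) else 0) := by
      intro κ
      by_cases h1 : NPSIfin_c p l s = κ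
      · by_cases h2 : NPSIfin_c p l t = κ
        · simp only [h1, h2, if_true, map_one]
          ring
        · simp [h1, h2]
      · simp [h1]
    rw [Finset.sum_congr rfl fun κ _ => hκ κ]
    rw [Finset.sum_ite_eq]
    simp only [Finset.mem_univ, if_true]
    rw [Matrix.star_eq_conjTranspose, Matrix.conjTranspose_apply]
    by_cases h : NPSIfin_c p l t = NPSIfin_c p l s
    · rw [if_pos h, if_pos h.symm]
      simp only [RCLike.star_def]
      ring
    · rw [if_neg h, if_neg (fun h' => h h'.symm)]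
      ring
  refine ⟨∑ q, W q * Complex.normSq (∑ a, Z q a * (fun a : Fin n' × JJ k => v a.1 a.2) a),
    Finset.sum_nonneg fun q _ => mul_nonneg (hW q) (Complex.normSq_nonneg _), ?_⟩
  rw [← NPSIfin_abs, Fintype.sum_prod_type]
  refine Finset.sum_congr rfl fun i _ => ?_
  rw [Finset.sum_comm]
  refine Finset.sum_congr rfl fun s _ => ?_
  rw [Fintype.sum_prod_type]
  refine Finset.sum_congr rfl fun j _ => ?_
  refine Finset.sum_congr rfl fun t _ => ?_
  rw [key]

end

end Pool.OPP
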