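import Pool.Agent.H7.OPP.Stmts

set_option autoImplicit false

open scoped Topology ComplexConjugate Uniformity

namespace Pool.OPP

noncomputable section

/-- the orbit relation -/
def ORB_setoid (h1 : SAct) : Setoid SS where
  r x y := ∃ γ : ℕ → ZMod 3, act γ x = y
  iseqv := by
    obtain ⟨h0, hadd, hfree, -⟩ := h1
    refine ⟨fun x => ⟨0, h0 x⟩, ?_, ?_⟩
    · rintro x y ⟨γ, rfl⟩
      refine ⟨-γ, ?_⟩
      rw [← hadd, neg_add_cancel, h0]
    · rintro x y z ⟨γ, rfl⟩ ⟨γ', rfl⟩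
      exact ⟨γ' + γ, hadd _ _ _⟩

theorem ORB_main (h1 : SAct) (Y : Type) [Nonempty Y] (aY : (ℕ → ZMod 3) → Y → Y)
    (_ha0 : ∀ y, aY 0 y = y)
    (haadd : ∀ γ γ' y, aY (γ + γ') y = aY γ (aY γ' y))
    (Z : Set SS) (hZ : ∀ γ, ∀ x ∈ Z, act γ x ∈ Z)
    (Q : SS → Y → Prop) (hQ : ∀ γ, ∀ x ∈ Z, ∀ y, Q x y → Q (act γ x) (aY γ y))
    (hex : ∀ x ∈ Z, ∃ y, Q x y) :
    ∃ r : SS → Y, ∀ x ∈ Z, Q x (r x) ∧ ∀ γ, r (act γ x) = aY γ (r x) := by
  classical
  have h1' := h1
  obtain ⟨h0, hadd, hfree, -⟩ := h1'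
  let rep : SS → SS := fun x => Quotient.out (Quotient.mk (ORB_setoid h1) x)
  have hrep : ∀ x, ∃ γ : ℕ → ZMod 3, act γ (rep x) = x := by
    intro x
    have : (Quotient.mk (ORB_setoid h1) (rep x)) = Quotient.mk (ORB_setoid h1) x :=
      Quotient.out_eq _
    exact Quotient.exact this
  choose g hg using hrep
  have hrepact : ∀ γ x, rep (act γ x) = rep x := by
    intro γ x
    show Quotient.out (Quotient.mk (ORB_setoid h1) (act γ x)) =
      Quotient.out (Quotient.mk (ORB_setoid h1) x)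
    congr 1
    apply Quotient.sound
    refine ⟨-γ, ?_⟩
    rw [← hadd, neg_add_cancel, h0]
  have hgact : ∀ γ x, g (act γ x) = γ + g x := by
    intro γ x
    have e1 : act (g (act γ x)) (rep x) = act (γ + g x) (rep x) := by
      have := hg (act γ x)
      rw [hrepact] at this
      rw [this, hadd, hg x]
    have e2 : act (-(γ + g x) + g (act γ x)) (rep x) = rep x := by
      rw [hadd, e1, ← hadd, neg_add_cancel, h0]
    have e3 := hfree _ _ e2
    have := neg_add_eq_zero.1 e3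
    exact this.symm
  let yy : SS → Y := fun z => if hz : z ∈ Z then (hex z hz).choose else Classical.arbitrary Y
  have hyy : ∀ z, z ∈ Z → Q z (yy z) := by
    intro z hz
    simp only [yy, dif_pos hz]
    exact (hex z hz).choose_spec
  refine ⟨fun x => aY (g x) (yy (rep x)), ?_⟩
  intro x hx
  have hrx : rep x ∈ Z := by
    have : act (-(g x)) x = rep x := by
      have e := congrArg (act (-(g x))) (hg x)
      rw [← hadd, neg_add_cancel, h0] at e
      exact e.symm
    rw [← this]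
    exact hZ _ _ hx
  refine ⟨?_, ?_⟩
  · have := hQ (g x) (rep x) hrx _ (hyy _ hrx)
    rw [hg x] at this
    exact this
  · intro γ
    show aY (g (act γ x)) (yy (rep (act γ x))) = aY γ (aY (g x) (yy (rep x)))
    rw [hrepact, hgact, haadd]

theorem sOrb (h1 : SAct) : SOrb := by
  intro Y _ aY ha0 haadd Z hZ Q hQ hex
  exact ORB_main h1 Y aY ha0 haadd Z hZ Q hQ hex

end

end Pool.OPP
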