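import Pool.Agent.H7.OPP.Stmts

set_option autoImplicit false

open scoped Topology ComplexConjugate Uniformity

namespace Pool.OPP

noncomputable section

theorem UNC_one (j : ℕ) (δ : ℝ) (hδ : 0 < δ) :
    {p : SS × SS | ‖(p.1 j : EuclideanSpace ℂ (Fin (NN j))) -
      (p.2 j : EuclideanSpace ℂ (Fin (NN j)))‖ < δ} ∈ 𝓤 SS := by
  have h1 : {q : CSph (NN j) × CSph (NN j) | dist q.1 q.2 < δ} ∈ 𝓤 (CSph (NN j)) :=
    Metric.dist_mem_uniformity hδ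
  have h2 : UniformContinuous (fun x : SS => x j) := Pi.uniformContinuous_proj _ j
  have h3 := h2 h1
  refine Filter.mem_of_superset h3 ?_
  rintro ⟨x, y⟩ hxy
  have h4 : dist (x j) (y j) < δ := hxy
  rw [Subtype.dist_eq, dist_eq_norm] at h4
  exact h4

theorem UNC_a (n : ℕ) (δ : ℝ) (hδ : 0 < δ) : {p : SS × SS | Close n δ p.1 p.2} ∈ 𝓤 SS := by
  have : {p : SS × SS | Close n δ p.1 p.2} = ⋂ j ∈ Finset.range n,
      {p : SS × SS | ‖(p.1 j : EuclideanSpace ℂ (Fin (NN j))) -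
      (p.2 j : EuclideanSpace ℂ (Fin (NN j)))‖ < δ} := by
    ext p
    simp [Close]
  rw [this]
  exact (Filter.biInter_finset_mem _).2 fun j _ => UNC_one j δ hδ

theorem UNC_b (V : Set (SS × SS)) (hV : V ∈ 𝓤 SS) :
    ∃ (n : ℕ) (δ : ℝ), 0 < δ ∧ ∀ x y : SS, Close n δ x y → (x, y) ∈ V := by
  classical
  have hV' : V ∈ ⨅ i : ℕ, Filter.comap (fun a : SS × SS => (a.1 i, a.2 i)) (𝓤 (CSph (NN i))) := by
    rw [← Pi.uniformity]; exact hV
  rw [Filter.mem_iInf] at hV'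
  obtain ⟨I, hI, W, hW, hVW⟩ := hV'
  have hex : ∀ i : I, ∃ δ : ℝ, 0 < δ ∧ ∀ x y : SS,
      ‖(x i : EuclideanSpace ℂ (Fin (NN i))) - (y i : EuclideanSpace ℂ (Fin (NN i)))‖ < δ →
      (x, y) ∈ W i := by
    intro i
    obtain ⟨t, ht, htW⟩ := Filter.mem_comap.1 (hW i)
    obtain ⟨δ, hδ, hδt⟩ := Metric.mem_uniformity_dist.1 ht
    refine ⟨δ, hδ, fun x y hxy => htW ?_⟩
    show (x i, y i) ∈ t
    apply hδt
    rw [Subtype.dist_eq, dist_eq_norm]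
    exact hxy
  choose d hd hdW using hex
  haveI : Fintype I := hI.fintype
  obtain ⟨n, hn⟩ : ∃ n : ℕ, ∀ i : I, (i : ℕ) < n := by
    obtain ⟨n, hn⟩ := hI.bddAbove
    exact ⟨n + 1, fun i => Nat.lt_succ_of_le (hn i.2)⟩
  obtain ⟨δ, hδ, hδd⟩ : ∃ δ : ℝ, 0 < δ ∧ ∀ i : I, δ ≤ d i := by
    by_cases hne : Nonempty I
    · obtain ⟨i0, hi0⟩ := Finite.exists_min d
      exact ⟨d i0, hd i0, hi0⟩
    · exact ⟨1, one_pos, fun i => absurd ⟨i⟩ hne⟩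
  refine ⟨n, δ, hδ, fun x y hxy => ?_⟩
  rw [hVW]
  refine Set.mem_iInter.2 fun i => hdW i x y ?_
  exact lt_of_lt_of_le (hxy i (hn i)) (hδd i)

theorem sUnc : SUnc := by
  refine ⟨UNC_a, UNC_b, ?_⟩
  intro E _ F hF ε hε
  have hU : UniformContinuous F := CompactSpace.uniformContinuous_of_continuous hF
  have h1 : {q : E × E | dist q.1 q.2 < ε} ∈ 𝓤 E := Metric.dist_mem_uniformity hε
  obtain ⟨n, δ, hδ, h⟩ := UNC_b _ (hU h1)
  refine ⟨n, δ, hδ, fun x y hxy => ?_⟩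
  have h2 : dist (F x) (F y) < ε := h x y hxy
  rwa [dist_eq_norm] at h2

end

end Pool.OPP
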